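import Pool.Agent.HX6.KPR.Main

set_option autoImplicit false

/-!
Every linear information inequality whose coefficients are computable real numbers, and every
finite nonnegative real combination of such inequalities, holds for prefix complexity with
precision `O(1)`.
-/

namespace Pool.Agent.Results.MP_fd63cb_lc.ComputableCoefficients

open Finset

/-- `U` is a prefix-free machine: a partial computable map on binary strings such that no program
in its domain is a proper initial segment of another program in its domain. -/
def PrefixFreeMachine (U : List Bool →. List Bool) : Prop :=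
  Partrec U ∧ ∀ p q : List Bool, (U p).Dom → (U q).Dom → p <+: q → p = q

/-- `U` is an optimal prefix-free machine: it is prefix-free, and for every prefix-free machine
`V` there is `c` such that whatever `V` produces from a program `p`, `U` produces from some
program of length at most `|p| + c`. -/
def OptimalMachine (U : List Bool →. List Bool) : Prop :=
  PrefixFreeMachine U ∧ ∀ V : List Bool →. List Bool, PrefixFreeMachine V →
    ∃ c : ℕ, ∀ p x : List Bool, x ∈ V p → ∃ q : List Bool, x ∈ U q ∧ q.length ≤ p.length + c

/-- prefix complexity of the string `x`: the least length of a program `p` with `U(p) = x` -/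
noncomputable def KP (U : List Bool →. List Bool) (x : List Bool) : ℕ :=
  sInf {l : ℕ | ∃ p : List Bool, p.length = l ∧ x ∈ U p}

/-- the probability that the random variables `ξ i`, `i ∈ S`, take the values `y i`, when the
tuple `ξ` has distribution `p` on `Fin n → Fin (m+1)` -/
def marg {n m : ℕ} (p : (Fin n → Fin (m + 1)) → ℝ) (S : Finset (Fin n))
    (y : Fin n → Fin (m + 1)) : ℝ :=
  ∑ z : Fin n → Fin (m + 1), if (∀ i ∈ S, z i = y i) then p z else 0

/-- Shannon entropy (in nats) of the subtuple `ξ_S`; the possible values of `ξ_S` are indexed by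
the `y` that vanish outside `S`. -/
noncomputable def entropy {n m : ℕ} (p : (Fin n → Fin (m + 1)) → ℝ) (S : Finset (Fin n)) : ℝ :=
  ∑ y : Fin n → Fin (m + 1), if (∀ i, i ∉ S → y i = 0) then Real.negMulLog (marg p S y) else 0

/-- `∑_S lam S * H(ξ_S) ≥ 0` for all jointly distributed random variables `ξ_1, ..., ξ_n` with
finite range -/
def InfoInequality (n : ℕ) (lam : Finset (Fin n) → ℝ) : Prop :=
  ∀ (m : ℕ) (p : (Fin n → Fin (m + 1)) → ℝ), (∀ z, 0 ≤ p z) → (∑ z, p z) = 1 →
    0 ≤ ∑ S : Finset (Fin n), lam S * entropy p S

/-- the subtuple `x_S`, in increasing order of indices -/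
def subtuple {n : ℕ} (x : Fin n → List Bool) (S : Finset (Fin n)) : List (List Bool) :=
  ((List.finRange n).filter (fun i => decide (i ∈ S))).map x

/-- `∑_S lam S * KP(x_S)` is bounded below over all tuples of strings -/
def HoldsForKP (U : List Bool →. List Bool) (enc : List (List Bool) → List Bool) (n : ℕ)
    (lam : Finset (Fin n) → ℝ) : Prop :=
  ∃ c : ℝ, ∀ x : Fin n → List Bool,
    -c ≤ ∑ S : Finset (Fin n), lam S * (KP U (enc (subtuple x S)) : ℝ)

/-- `a` is a computable real number: an algorithm computes from `k` integers `f k`, `g k` with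
`|a - (f k - g k) / (k + 1)| ≤ 1 / (k + 1)`. -/
def ComputableReal (a : ℝ) : Prop :=
  ∃ f g : ℕ → ℕ, Computable f ∧ Computable g ∧
    ∀ k : ℕ, |a - ((f k : ℝ) - (g k : ℝ)) / ((k : ℝ) + 1)| ≤ 1 / ((k : ℝ) + 1)

theorem compReal {a : ℝ} (h : ComputableReal a) : Pool.Agent.HX6.KPR.CompReal a := by
  obtain ⟨f, g, hf, hg, hap⟩ := h
  refine ⟨f, g, hf, hg, fun k => ?_⟩
  have hk : (0:ℝ) < (k:ℝ) + 1 := by positivity
  have h1 := mul_le_mul_of_nonneg_right (hap k) hk.le
  rw [div_mul_cancel₀ _ hk.ne'] at h1
  have e : |a - ((f k : ℝ) - (g k : ℝ)) / ((k : ℝ) + 1)| * ((k : ℝ) + 1) =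
      |a * ((k : ℝ) + 1) - ((f k : ℝ) - g k)| := by
    nth_rewrite 2 [← abs_of_pos hk]
    rw [← abs_mul, sub_mul, div_mul_cancel₀ _ hk.ne']
  rw [e] at h1
  exact h1

theorem computable (U : List Bool →. List Bool) (hU : OptimalMachine U)
    (enc : List (List Bool) → List Bool) (henc : Computable enc) (hinj : Function.Injective enc)
    (n : ℕ) (lam : Finset (Fin n) → ℝ) (hc : ∀ S, ComputableReal (lam S))
    (h : InfoInequality n lam) : HoldsForKP U enc n lam :=
  Pool.Agent.HX6.KPR.comp_machine hU enc henc hinj n lam (fun S => compReal (hc S)) h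

/-- **Linear information inequalities with computable coefficients, for prefix complexity with
precision `O(1)`.**  For every optimal prefix-free machine `U`, every computable injective encoding
of tuples and every `n`: if the coefficient vector `lam` is a finite nonnegative real combination
`∑ j, r j * q j` of coefficient vectors `q j` of linear information inequalities whose coefficients
are computable real numbers (for instance, if `lam` itself is the coefficient vector of a linear
information inequality with computable coefficients), then the inequality with coefficients `lam`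
holds for `KP` with precision `O(1)`. -/
theorem result : ∀ U : List Bool →. List Bool, OptimalMachine U →
    ∀ enc : List (List Bool) → List Bool, Computable enc → Function.Injective enc →
    ∀ (n : ℕ) (lam : Finset (Fin n) → ℝ),
      (∃ (J : ℕ) (q : Fin J → Finset (Fin n) → ℝ) (r : Fin J → ℝ), (∀ j, 0 ≤ r j) ∧
        (∀ j, InfoInequality n (q j)) ∧ (∀ j S, ComputableReal (q j S)) ∧
        ∀ S, lam S = ∑ j, r j * q j S) →
      HoldsForKP U enc n lam := by
  rintro U hU enc henc hinj n lam ⟨J, q, r, hr, hq, hqc, hlam⟩
  have h := fun j => computable U hU enc henc hinj n (q j) (hqc j) (hq j)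
  choose c hc using h
  refine ⟨∑ j, r j * c j, fun x => ?_⟩
  have h1 : ∑ S : Finset (Fin n), lam S * (KP U (enc (subtuple x S)) : ℝ) =
      ∑ j, r j * ∑ S : Finset (Fin n), q j S * (KP U (enc (subtuple x S)) : ℝ) := by
    simp only [hlam, Finset.sum_mul, Finset.mul_sum]
    rw [Finset.sum_comm]
    refine Finset.sum_congr rfl fun j _ => Finset.sum_congr rfl fun S _ => ?_
    ring
  rw [h1, ← Finset.sum_neg_distrib]
  refine Finset.sum_le_sum fun j _ => ?_
  rw [← mul_neg]
  exact mul_le_mul_of_nonneg_left (hc j x) (hr j)

end Pool.Agent.Results.MP_fd63cb_lc.ComputableCoefficients
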